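import Mathlib
import Pool.Agent.Lib.MP_f722f0_gt.Final

set_option autoImplicit false

/-!
Neither `Split(T, T)` nor `(T choose Gamma)` is provably closed under finite products of sets of
reals: ZFC proves that if one of the two classes is closed under finite products, then the continuum
hypothesis fails.

Idea of the proof.  Every Luzin set satisfies `(T choose Gamma)`: a tau-cover of a Luzin set induces
a quasi-order that is linear modulo finite sets, and a Baire category argument shows that it has
countable coinitiality, so that it has a pseudo-intersection.  Under CH there are two Luzin sets
`X = {x_a}` and `Y = {y_a}` such that `x_a + y_a` runs through a set of codes (inside the Cantor set)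
for a base of an ultrafilter that is linearly ordered modulo finite sets, while `x_a + y_b` is not in
the Cantor set for distinct `a, b`.  The closed subset `x + y ∈ cantorSet` of the product then carries
a tau-cover which shows that the product does not satisfy `Split(T, T)`.
-/

namespace Pool.Agent.Results.MP_f722f0_gt.NotProductive

open Pool.Agent.Lib.MP_f722f0_gt

/-- If one of the classes `Split(T, T)` and `(T choose Gamma)` is closed under finite products of
sets of reals, then the continuum hypothesis fails. -/
theorem result :
    (ClosedUnderFiniteProducts SplitTauTau ∨ ClosedUnderFiniteProducts TauChooseGamma) →
      Cardinal.continuum.{0} ≠ Cardinal.aleph 1 := by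
  intro h CH
  rcases h with h | h
  · exact (main_theorem CH).1 h
  · exact (main_theorem CH).2 h

end Pool.Agent.Results.MP_f722f0_gt.NotProductive
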